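import Pool.Agent.MVF.C191
import Pool.Agent.MVF.C214
import Pool.Agent.VB.HDefs

/-!
# The cyclotomic `μ`-invariant for `p = 3` over all imaginary quadratic fields

All fields are subfields of `ℂ`, `classNo E` is the class number of `E`. `IsLayer p n Q`: `Q` is the
`n`-th layer of the cyclotomic `ℤ_p`-extension of `ℚ`, so that `K ⊔ Q` is the layer `K ℚ_n`, and
`cycExt p K` is the cyclotomic `ℤ_p`-extension of `K`. `k` is any imaginary quadratic field and `K / k`
any finite abelian extension.

The first part is a bound polynomial in `n` for the `3`-part of the class number of `K ℚ_n`; the second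
part says that `μ = 0` in Iwasawa's growth formula (for real numbers `μ`, `lam`, `nu`, so that
nothing has to be assumed on the intersection of `K` with the cyclotomic extension); the third part says
that the cyclotomic `ℤ_3`-extension of `K` has only finitely many unramified Galois extensions of
degree `3`, so that the Galois group `X` of its maximal unramified abelian `3`-extension is finitely
generated over `ℤ_3`. The definitions are in `Pool/Agent/VB/HDefs.lean`.
-/

open Pool.Agent.MuCyc

namespace Pool.Agent.Results.MP_b78433_nt.MuThree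

theorem result (k K : IntermediateField ℚ ℂ)
    -- `k` is an imaginary quadratic field
    (hk : Module.finrank ℚ k = 2) (hi : ∃ z ∈ k, (starRingEnd ℂ) z ≠ z)
    -- `K / k` is a finite abelian extension
    [FiniteDimensional ℚ K] (h : k ≤ K) (hG : IsGalois k (IntermediateField.extendScalars h))
    (hc : ∀ σ τ : (IntermediateField.extendScalars h) ≃ₐ[k] (IntermediateField.extendScalars h),
      σ * τ = τ * σ) :
    (∃ C : ℕ, ∀ (n : ℕ) (Q : IntermediateField ℚ ℂ), IsLayer 3 n Q →
      padicValNat 3 (classNo (K ⊔ Q)) ≤ C * (n + 1) ^ C) ∧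
    (∀ μ lam nu : ℝ, (∃ n₀ : ℕ, ∀ n ≥ n₀, ∀ Q : IntermediateField ℚ ℂ, IsLayer 3 n Q →
      (padicValNat 3 (classNo (K ⊔ Q)) : ℝ) = μ * 3 ^ n + lam * n + nu) → μ = 0) ∧
    (unramifiedExt 3 (cycExt 3 K)).Finite := by
  have h0 := Pool.Agent.VB.last_all (Or.inr rfl) Pool.Agent.JT.finJ3_all k K hk hi h hG hc
  exact ⟨h0.1, fun μ lam nu hg => h0.2.1 μ lam nu (by exact_mod_cast hg), h0.2.2⟩

end Pool.Agent.Results.MP_b78433_nt.MuThree
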