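import Pool.Agent.OQM.Fin

/-!
# MP_b78433_nt: one even and one odd branch with `μ = 0` for every prime `p ≥ 5`; whole fields, `p = 5`

All fields are subfields of `ℂ`; `extendScalars h` is the larger field of the inclusion `h` as an extension
of the smaller one. `k` is an imaginary quadratic field. The definition `ImQuadratic` is in
`Pool/Agent/OVM/Stmt.lean`, `FinAb`, `PGal`, `MuLEC` are in `Pool/Agent/OUM/Stmt.lean`, `Abelian`,
`InChiPart`, `MuZeroC`, `IsTwist`, `MuZeroF` are in `Pool/Agent/OBM/Stmt.lean`, `classNo`, `IsLayer`,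
`cycExt`, `Unramified`, `unramifiedExt` in `Pool/Agent/VB/HDefs.lean`.
-/

set_option autoImplicit false

open NumberField IntermediateField Pool.Agent.MuBr

namespace Pool.Agent.Results.MP_b78433_nt.OneBranch

/-- (1) Every prime `p ≥ 5`: one even and one odd branch; at least `2 [K : k] / (p - 1)` of the characters.
(2) `p = 5`, `K` abelian over `k` (of degree prime to 5) and over `ℚ(√5)`, `K' = K ∩ ℚ^ab` (the elements
of `K` on which any two automorphisms of `K` commute): `μ = 0` for every character which is not trivial on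
`Gal(K/K')`, and `μ(K E) ≤ μ(K' E)` for every Galois extension `E/k` of degree `5 ^ a`.
(3) The same inequality if `K/k` is cyclic of degree `2 ^ r` with `√5 ∈ K` and `[K' : k] = 4`.
(4) Quartic fields with `√5`, a real and a non-real embedding. -/
theorem result :
    (∀ (p : ℕ) [Fact p.Prime], 5 ≤ p → ∀ (k K : IntermediateField ℚ ℂ) (h : k ≤ K),
      ImQuadratic k → Abelian p h → (∃ ζ ∈ K, IsPrimitiveRoot ζ p) →
      (∀ χ : ((extendScalars h) ≃ₐ[k] (extendScalars h)) →* (AlgebraicClosure (ZMod p))ˣ,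
        (∃ i < p - 1, Even i ∧ ∃ χ', IsTwist p h χ χ' i ∧ MuZeroC p h χ') ∧
        ∃ j < p - 1, Odd j ∧ ∃ χ', IsTwist p h χ χ' j ∧ MuZeroC p h χ') ∧
      2 * Module.finrank k (extendScalars h) ≤
        (p - 1) * {χ | MuZeroC p h χ}.ncard) ∧
    (∀ [Fact (Nat.Prime 5)] (k K : IntermediateField ℚ ℂ) (h : k ≤ K),
      ImQuadratic k → Abelian 5 h → ∀ w : ℂ, w ^ 2 = 5 → ∀ (hw : adjoin ℚ {w} ≤ K), FinAb hw →
      (∀ (χ : ((extendScalars h) ≃ₐ[k] (extendScalars h)) →* (AlgebraicClosure (ZMod 5))ˣ)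
        (s : (extendScalars h) ≃ₐ[k] (extendScalars h)),
        (∀ (x : extendScalars h) (y : K), (y : ℂ) = x →
          (∀ σ τ : K ≃ₐ[ℚ] K, σ (τ y) = τ (σ y)) → s x = x) → χ s ≠ 1 → MuZeroC 5 h χ) ∧
      ∀ K' : IntermediateField ℚ ℂ, k ≤ K' → K' ≤ K →
        (∀ y : K, (∀ σ τ : K ≃ₐ[ℚ] K, σ (τ y) = τ (σ y)) → (y : ℂ) ∈ K') →
        ∀ (E : IntermediateField ℚ ℂ) (hE : k ≤ E), PGal 5 hE → MuLEC 5 (K ⊔ E) (K' ⊔ E)) ∧
    (∀ (k K : IntermediateField ℚ ℂ) (h : k ≤ K), ImQuadratic k → FinAb h →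
      IsCyclic ((extendScalars h) ≃ₐ[k] (extendScalars h)) →
      (∃ r : ℕ, Module.finrank k (extendScalars h) = 2 ^ r) → (∃ w ∈ K, w ^ 2 = 5) →
      ∀ (K' : IntermediateField ℚ ℂ) (h' : k ≤ K'), K' ≤ K →
        Module.finrank k (extendScalars h') = 4 →
        ∀ (E : IntermediateField ℚ ℂ) (hE : k ≤ E), PGal 5 hE → MuLEC 5 (K ⊔ E) (K' ⊔ E)) ∧
    (∀ E : IntermediateField ℚ ℂ, Module.finrank ℚ E = 4 → (∃ w ∈ E, w ^ 2 = 5) →
      (∃ φ : E →+* ℂ, ∀ x, (starRingEnd ℂ) (φ x) = φ x) →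
      (∃ φ : E →+* ℂ, ∃ x, (starRingEnd ℂ) (φ x) ≠ φ x) →
      ∀ (F F' : IntermediateField ℚ ℂ) (h : E ⊔ adjoin ℚ {z : ℂ | z ^ 5 = 1} ≤ F'),
        FiniteDimensional ℚ F' →
        IsGalois ↥(E ⊔ adjoin ℚ {z : ℂ | z ^ 5 = 1}) (extendScalars h) →
        (∃ a : ℕ, Module.finrank ↥(E ⊔ adjoin ℚ {z : ℂ | z ^ 5 = 1}) (extendScalars h) = 5 ^ a) →
        F ≤ F' → MuZeroF 5 F) := by
  haveI : Fact (Nat.Prime 5) := ⟨by norm_num⟩
  exact ⟨one_branch_all.1, five_ab, five_cy, one_branch_all.2⟩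

end Pool.Agent.Results.MP_b78433_nt.OneBranch
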