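import Pool.Agent.OVM.Fin

/-!
# Twists of the `χ`-parts of Iwasawa modules over imaginary quadratic fields, all primes `p ≥ 5`

All fields are subfields of `ℂ`; `extendScalars h` is the larger field of the inclusion `h` as an extension
of the smaller one. `k` is an imaginary quadratic field; `K / k` is a finite abelian extension (`p` may
divide its degree); `l = 2` or `l = 3`; `B₀ = B_(r₀)` and `B = B_r` are layers of the cyclotomic
`ℤ_l`-extension of `ℚ`. The definition `ImQuadratic` is in `Pool/Agent/OVM/Stmt.lean`, `InChiPart`,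
`MuZeroC` in `Pool/Agent/OBM/Stmt.lean`, `FinAb`, `PGal`, `MuLEC` in `Pool/Agent/OUM/Stmt.lean`, `classNo`,
`IsLayer` in `Pool/Agent/VB/HDefs.lean`.
-/

set_option autoImplicit false

open NumberField IntermediateField Pool.Agent.MuBr
open Pool.Agent.MuCyc (IsLayer)

namespace Pool.Agent.Results.MP_b78433_nt.TwistsEveryPrime

theorem result (p : ℕ) [Fact p.Prime] (hp : 5 ≤ p) (k K : IntermediateField ℚ ℂ) (h : k ≤ K)
    -- `k` is imaginary quadratic, `K / k` is finite abelian
    (hk : ImQuadratic k) (hK : FinAb h) (l : ℕ) (hl : l = 2 ∨ l = 3) :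
    ∃ (r₀ : ℕ) (B₀ : IntermediateField ℚ ℂ), IsLayer l r₀ B₀ ∧
      ∀ (r : ℕ) (B : IntermediateField ℚ ℂ), IsLayer l r B →
        -- (1) the characters `χ` of `Gal(L / k)`, `[L : k]` prime to `p`, with `χ s ≠ 1` for some
        -- automorphism `s` which fixes the elements of `K B₀` in `L` have `μ = 0`
        (∀ (L : IntermediateField ℚ ℂ) (hL : k ≤ L), L ≤ K ⊔ B →
          ¬ p ∣ Module.finrank k (extendScalars hL) →
          ∀ χ : ((extendScalars hL) ≃ₐ[k] (extendScalars hL)) →* (AlgebraicClosure (ZMod p))ˣ,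
          (∃ s, (∀ x : extendScalars hL, (x : ℂ) ∈ K ⊔ B₀ → s x = x) ∧ χ s ≠ 1) →
            MuZeroC p hL χ) ∧
        -- (2) all fields between `k` and `K B`, and their composites with the extensions `E` of
        -- `p`-power degree
        ∀ L : IntermediateField ℚ ℂ, k ≤ L → L ≤ K ⊔ B →
          ∀ (E : IntermediateField ℚ ℂ) (hE : k ≤ E), PGal p hE →
            MuLEC p (L ⊔ E) ((L ⊓ (K ⊔ B₀)) ⊔ E) :=
  twists_every p hp k K h hk hK l hl

end Pool.Agent.Results.MP_b78433_nt.TwistsEveryPrime
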